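import Pool.Agent.H324.RP.Final

/-!
# Rigid phase relations are balanced

For a nondegenerate (for example hyperbolic) periodic orbit `x` of an admissible `C¹` vector field
of a coupled cell network and for every shift `θ`, there is one relation `R` on the nodes that
contains all pairs of nodes that are rigidly phase-related with shift `θ`, consists of pairs that
are phase-related with shift `θ` on `x`, and is balanced: if `R c d`, then `c` and `d` are input
isomorphic, and some input isomorphism matches every input of `c` with an input of `d` that is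
again related to it by `R`.

In particular this contains the rigid input conjecture and the rigid phase conjecture (the inputs
of rigidly phase-related nodes are phase-related with the same shift) and, for `θ = 0`, where `R`
is an equivalence relation, the rigid synchrony conjecture.

The definitions `Network`, `InputIso`, `Ph`, `st`, `Admissible`, `Tup`, `tup` are in
`Pool/Agent/H848R3/RI/Net.lean`, `SmAdm` is in `Pool/Agent/H848R3/RI/Bump.lean`, `IsFund` is in
`Pool/Agent/H848R3/RI/Lin.lean`, `PeriodicOrbit` is in `Pool/Agent/H848R3/RI/Hyp.lean`, and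
`Nondegenerate` is in `Pool/Agent/H324/RP/Final.lean`.
-/

set_option autoImplicit false

open Pool.Agent.H848R3.RI Pool.Agent.H324.RP

namespace Pool.Agent.Results.MP_260507_an.RigidPhase

/-- Nodes `c` and `d` are phase-related on the curve `x` with phase shift `θ`:
`x_c(t) = x_d(t + θ)` for all `t` (synchronous, if `θ = 0`). -/
def PhaseRelated {N : Network} {V : N.SType → Type} (x : ℝ → Ph N V) (c d : N.Node) (θ : ℝ) :
    Prop :=
  ∀ t, st (x t) c = st (x (t + θ)) d

/-- The phase relation with shift `θ` between `c` and `d` on the `T`-periodic orbit `x` of the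
admissible field `f` is rigid: there is `δ > 0` such that for every smooth admissible `h` with
`‖h‖ < δ`, `‖Dh‖ < δ` everywhere, the relation with shift `θ T' / T` holds on the nearby periodic
orbit of `f + h` (every periodic orbit `x'` of `f + h` of period `T'`, `|T' - T| < δ`, that is
`δ`-close to `x` on `[0, T]`). For `h = 0` this includes that the relation holds on `x`. -/
def Rigid {N : Network} {V : N.SType → Type} [∀ τ, NormedAddCommGroup (V τ)]
    [∀ τ, NormedSpace ℝ (V τ)] (f : Ph N V → Ph N V) (x : ℝ → Ph N V) (T : ℝ)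
    (c d : N.Node) (θ : ℝ) : Prop :=
  ∃ δ > 0, ∀ h : Ph N V → Ph N V, SmAdm h → (∀ z, ‖h z‖ < δ ∧ ‖fderiv ℝ h z‖ < δ) →
    ∀ (x' : ℝ → Ph N V) (T' : ℝ), PeriodicOrbit (fun z => f z + h z) x' T' → |T' - T| < δ →
      (∀ t ∈ Set.Icc 0 T, ‖x' t - x t‖ < δ) → PhaseRelated x' c d (θ * (T' / T))

/-- Nodes `c` and `d` are input isomorphic: for every arrow type, `I(c)` and `I(d)` contain equally
many arrows of that type. -/
def InputIsomorphic (N : Network) (c d : N.Node) : Prop :=
  ∀ α : N.AType, Nat.card {e : N.In c // N.atype e.1 = α} =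
    Nat.card {e : N.In d // N.atype e.1 = α}

/-- **Rigid phase relations are balanced**: for every network, every admissible `C¹` vector field
`f`, every nondegenerate periodic orbit `x` of `f` and every shift `θ` there is a relation `R` on
the nodes such that (i) all rigidly phase-related nodes with shift `θ` are related, (ii) related
nodes are phase-related with shift `θ` on `x`, (iii) related nodes have equal type, are input
isomorphic, and some type-preserving bijection between their input sets matches every input with a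
related input; if `θ = 0`, then `R` is an equivalence relation. -/
theorem result (N : Network) (V : N.SType → Type) [∀ τ, NormedAddCommGroup (V τ)]
    [∀ τ, NormedSpace ℝ (V τ)] [∀ τ, FiniteDimensional ℝ (V τ)] [∀ τ, Nontrivial (V τ)]
    (f : Ph N V → Ph N V) (hf : Admissible f) (x : ℝ → Ph N V) (T : ℝ)
    (hx : PeriodicOrbit f x T) (hh : Nondegenerate f x T) (θ : ℝ) :
    ∃ R : N.Node → N.Node → Prop,
      (∀ c d, Rigid f x T c d θ → R c d) ∧
      (∀ c d, R c d → PhaseRelated x c d θ) ∧
      (∀ c d, R c d → N.ntype c = N.ntype d ∧ InputIsomorphic N c d ∧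
        ∃ β : InputIso N c d, ∀ e : N.In c, R (N.tail e.1) (N.tail (β.toEquiv e).1)) ∧
      (θ = 0 → Equivalence R) := by
  classical
  have hp : PerOrb f x T := hx.perOrb hf.smooth
  have hT : T ≠ 0 := hp.pos.ne'
  -- a common `δ` for all rigid pairs
  obtain ⟨δ, hδ, hall⟩ : ∃ δ > 0, ∀ c d, Rigid f x T c d θ →
      ∀ h : Ph N V → Ph N V, SmAdm h → (∀ z, ‖h z‖ < δ ∧ ‖fderiv ℝ h z‖ < δ) →
      ∀ (x' : ℝ → Ph N V) (T' : ℝ), PeriodicOrbit (fun z => f z + h z) x' T' → |T' - T| < δ →
      (∀ t ∈ Set.Icc 0 T, ‖x' t - x t‖ < δ) → PhaseRelated x' c d (θ * (T' / T)) := by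
    have h1 : ∀ p : N.Node × N.Node, ∃ δ > 0, Rigid f x T p.1 p.2 θ →
      ∀ h : Ph N V → Ph N V, SmAdm h → (∀ z, ‖h z‖ < δ ∧ ‖fderiv ℝ h z‖ < δ) →
      ∀ (x' : ℝ → Ph N V) (T' : ℝ), PeriodicOrbit (fun z => f z + h z) x' T' → |T' - T| < δ →
      (∀ t ∈ Set.Icc 0 T, ‖x' t - x t‖ < δ) → PhaseRelated x' p.1 p.2 (θ * (T' / T)) := by
      intro p
      by_cases hr : Rigid f x T p.1 p.2 θ
      · obtain ⟨δ, h1, h2⟩ := hr
        exact ⟨δ, h1, fun _ => h2⟩
      · exact ⟨1, one_pos, fun h => absurd h hr⟩
    choose δ hδ hδ2 using h1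
    rcases isEmpty_or_nonempty (N.Node × N.Node) with he | hne
    · exact ⟨1, one_pos, fun a b => (he.false (a, b)).elim⟩
    · obtain ⟨p₀, hp₀⟩ := Finite.exists_min δ
      exact ⟨δ p₀, hδ p₀, fun c d hr h h1 h2 x' T' h3 h4 h5 => hδ2 (c, d) hr h h1
        (fun z => ⟨(h2 z).1.trans_le (hp₀ (c, d)), (h2 z).2.trans_le (hp₀ (c, d))⟩) x' T' h3
        (h4.trans_le (hp₀ (c, d))) fun t ht => (h5 t ht).trans_le (hp₀ (c, d))⟩
  obtain ⟨R, hR1, hR2, hR3, hR4⟩ := rigid_phase hf hp (hh.nDeg hf.smooth hp) hδ (θ / T)
  refine ⟨R, fun c d hr => hR1 c d ?_, fun c d hcd t => ?_, fun c d hcd => ?_, fun h => ?_⟩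
  · intro h x' T' h1 h2 h3 h4 h5 t
    have h6 := hall c d hr h h1 h2 x' T' h3.periodicOrbit h4 h5 t
    have h7 : t + θ / T * T' = t + θ * (T' / T) := by ring
    rw [h7]
    exact h6
  · have h1 := hR2 c d hcd t
    rwa [div_mul_cancel₀ θ hT] at h1
  · obtain ⟨β, hβ⟩ := hR3 c d hcd
    refine ⟨β.node, fun α => Nat.card_congr ?_, β, hβ⟩
    exact
      { toFun := fun e => ⟨β.toEquiv e.1, by rw [β.arr]; exact e.2⟩
        invFun := fun e => ⟨β.toEquiv.symm e.1, by
          have h1 := β.arr (β.toEquiv.symm e.1)
          rw [Equiv.apply_symm_apply] at h1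
          rw [← h1]; exact e.2⟩
        left_inv := fun e => by simp
        right_inv := fun e => by simp }
  · exact hR4 (by rw [h, zero_div])

end Pool.Agent.Results.MP_260507_an.RigidPhase
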